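import Mathlib
import Pool.Agent.Helper861.Gammoid3

set_option autoImplicit false

namespace Pool.Agent.Results.MP_6a3db1_co.NoGammoidBlock

/-- Let `F` be a finite field, `k ≥ 3`, and take finitely many nonzero vectors over `F` whose matroid is a gammoid
(a transversal matroid contracted by an independent set, meaning that some bipartite matching presentation
exists). Then there are `k` linear functionals such that each of the vectors is nonzero under at least one of
them; that is, the matroid is not a `k`-block over `F`. -/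
theorem result :
    ∀ (F : Type) [Field F] [Fintype F] (k : ℕ), 3 ≤ k → ∀ (N r : ℕ) (v : Fin N → (Fin r → F)),
      (∀ i, v i ≠ 0) →
      (∃ (K m : ℕ) (R : Fin N ⊕ Fin K → Fin m → Prop),
        ∀ S : Finset (Fin N),
          LinearIndependent F (fun i : S => v i.1) ↔
            ∃ f : Fin N ⊕ Fin K → Fin m,
              Set.InjOn f ((Sum.inl '' (S : Set (Fin N))) ∪ Set.range Sum.inr) ∧
              ∀ x ∈ ((Sum.inl '' (S : Set (Fin N))) ∪ Set.range Sum.inr), R x (f x)) →
      ∃ φ : Fin k → ((Fin r → F) →ₗ[F] F), ∀ i, ∃ j, φ j (v i) ≠ 0 := by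
  intro F _ _ k hk N r v hv h
  obtain ⟨L, hL⟩ := Pool.Agent.Helper861.Gammoid.main3 F N r v hv h
  refine ⟨fun j => if hj : j.1 < 3 then (LinearMap.proj ⟨j.1, hj⟩ : (Fin 3 → F) →ₗ[F] F).comp L else 0, ?_⟩
  intro i
  obtain ⟨j, hj⟩ := Function.ne_iff.1 (hL i)
  refine ⟨⟨j.1, lt_of_lt_of_le j.2 hk⟩, ?_⟩
  simp only [j.2, dif_pos]
  exact hj

end Pool.Agent.Results.MP_6a3db1_co.NoGammoidBlock
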